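import Pool.Agent.N39.RW.ChenC

/-!
# Primes `p` for which `p + 6` is a product of at most two primes and `p + 1, …, p + 5` are composite, between cubes

The question asks, between consecutive cubes, for primes `p` such that `p + 6` is the next prime. We consider the
primes `p` such that `p + 1, …, p + 5` are composite and `p + 6` is a prime or a product of two primes
(Chen's approximation to sexy primes), and show that a positive proportion of the intervals `(n³, (n + 1)³)` contains
at least `c n² / log² n` such pairs, the order of magnitude which is conjectured for `S(n)`. More precisely, a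
positive proportion of the integers `t` of such an interval are regular: ALL windows `(u, v]` around `t` of a length
between `K log² t` and `t` contain the right number of them, for which moreover all the prime factors of `p + 6` are
larger than a fixed power of `t`. The same for all other exponents `s ≥ 2` instead of `3`.
-/

set_option autoImplicit false

open Finset Filter

namespace Pool.Agent.Results.MP_5628fe_nt.ChenSexyBetweenCubes

/-- `p` is a prime, there is no prime strictly between `p` and `p + 6`, and `p + 6` is a prime or a product of two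
primes -/
def Sexy (p : ℕ) : Prop :=
  p.Prime ∧ (∀ j : ℕ, p < j → j < p + 6 → ¬ j.Prime) ∧ (p + 6).primeFactorsList.length ≤ 2

/-- the number of the `p` with `u < p ≤ v` and `Sexy p` where `p` and the prime factors of `p + 6` are larger
than `z` -/
noncomputable def sexy (z : ℝ) (u v : ℕ) : ℕ :=
  Set.ncard {p : ℕ | u < p ∧ p ≤ v ∧ Sexy p ∧ z < (p : ℝ) ∧ ∀ q : ℕ, q.Prime → q ∣ p + 6 → z < (q : ℝ)}

/-- `t` is regular: all windows around `t` of length between `K log² t` and `t` contain the right number of such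
primes, with `z = t ^ (1 / r)` -/
def Regular (r : ℕ) (c₁ c₂ K : ℝ) (t : ℕ) : Prop :=
  ∀ u v : ℕ, u ≤ t → t ≤ v → K * Real.log t ^ 2 ≤ (v : ℝ) - u → (v : ℝ) - u ≤ t →
    c₁ * ((v : ℝ) - u) / Real.log t ^ 2 ≤ (sexy ((t : ℝ) ^ (1 / (r : ℝ))) u v : ℝ) ∧
      (sexy ((t : ℝ) ^ (1 / (r : ℝ))) u v : ℝ) ≤ c₂ * ((v : ℝ) - u) / Real.log t ^ 2

/-- the number of the `p` with `n ^ s < p`, `p + 6 < (n + 1) ^ s` and `Sexy p` -/
noncomputable def S (s n : ℕ) : ℕ := Set.ncard {p : ℕ | n ^ s < p ∧ p + 6 < (n + 1) ^ s ∧ Sexy p}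

open Pool.Agent.N39.RW

theorem adm (p : ℕ) (hp : p.Prime) : ∃ m : ℕ, ∀ t ∈ ({0, 6} : Finset ℕ), ¬ p ∣ m + t := by
  rcases (by have := hp.two_le; omega : p < 8 ∨ 8 ≤ p) with h2 | h2
  · have h3 := hp.two_le
    interval_cases p
    · exact ⟨1, by decide⟩
    · exact ⟨1, by decide⟩
    · exact absurd hp (by norm_num)
    · exact ⟨1, by decide⟩
    · exact absurd hp (by norm_num)
    · exact ⟨2, by decide⟩
  · refine ⟨1, ?_⟩
    intro t ht
    rw [mem_insert, mem_singleton] at ht
    rcases ht with rfl | rfl <;> intro h <;> have := Nat.le_of_dvd (by norm_num) h <;> omega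

theorem sexy_of (r : ℕ) (z : ℝ) (p : ℕ) (hp6 : 6 ≤ p) (h : Ch {0, 6} 6 {3, 5} 1 r z p) :
    Sexy p ∧ z < (p : ℝ) ∧ ∀ q : ℕ, q.Prime → q ∣ p + 6 → z < (q : ℝ) := by
  obtain ⟨h1, h2, h3, h4⟩ := h
  refine ⟨⟨h1, ?_, h2⟩, (h4 0 (by simp)).2 p h1 (by simp), (h4 6 (by simp)).2⟩
  have e2 : p % 2 = 1 := by
    rcases h1.eq_two_or_odd with h | h
    · omega
    · exact h
  have e3 := h3 3 (by simp)
  have e5 := h3 5 (by simp)
  intro j hj1 hj2 hj
  have d2 : ¬ 2 ∣ j := by
    intro hd
    have := (Nat.prime_dvd_prime_iff_eq Nat.prime_two hj).1 hd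
    omega
  have d3 : ¬ 3 ∣ j := by
    intro hd
    have := (Nat.prime_dvd_prime_iff_eq Nat.prime_three hj).1 hd
    omega
  have d5 : ¬ 5 ∣ j := by
    intro hd
    have := (Nat.prime_dvd_prime_iff_eq Nat.prime_five hj).1 hd
    omega
  have hj3 : j = p + 1 ∨ j = p + 2 ∨ j = p + 3 ∨ j = p + 4 ∨ j = p + 5 := by omega
  rcases hj3 with rfl | rfl | rfl | rfl | rfl
  · apply d2; omega
  · apply d3; omega
  · apply d2; omega
  · apply d5; omega
  · apply d2; omega

/-- There are `r` and `c₁, c₂, K > 0` such that a positive proportion of all integers is regular, and for every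
`s ≥ 2` (for instance `s = 3`) there is `ν > 0` such that for all large `N` at least `ν N` of the integers
`n ∈ [N, 2 N)` have the following properties: at least `ν n ^ (s - 1)` of the integers `t` with
`n ^ s < t < (n + 1) ^ s` are regular, and there are at least `ν n ^ (s - 1) / log² n` integers `p` with
`n ^ s < p < p + 6 < (n + 1) ^ s` such that `p` is prime, `p + 1, …, p + 5` are composite and `p + 6` is a prime or a
product of two primes. -/
theorem result : ∃ (r : ℕ) (c₁ c₂ K : ℝ), 2 ≤ r ∧ 0 < c₁ ∧ 0 < c₂ ∧ 0 < K ∧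
    (∃ μ : ℝ, 0 < μ ∧ ∀ᶠ x : ℕ in atTop, μ * x ≤ (Set.ncard {t : ℕ | t ≤ x ∧ Regular r c₁ c₂ K t} : ℝ)) ∧
    ∀ s : ℕ, 2 ≤ s → ∃ ν : ℝ, 0 < ν ∧ ∀ᶠ N : ℕ in atTop, ν * N ≤
      (Set.ncard {n : ℕ | N ≤ n ∧ n < 2 * N ∧
        ν * (n : ℝ) ^ (s - 1) ≤ (Set.ncard {t : ℕ | n ^ s < t ∧ t < (n + 1) ^ s ∧ Regular r c₁ c₂ K t} : ℝ) ∧
        ν * (n : ℝ) ^ (s - 1) / Real.log n ^ 2 ≤ (S s n : ℝ)} : ℝ) := by
  classical
  obtain ⟨r, c₁, c₂, K, hr, hc₁, hc₂, hK, huse⟩ := useU {0, 6} (by simp) 6 (by simp) (by norm_num) adm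
    {3, 5} (by
      intro q hq
      rw [mem_insert, mem_singleton] at hq
      rcases hq with rfl | rfl <;> norm_num) 1 (by decide) 6
  have hcard : ({0, 6} : Finset ℕ).card = 2 := rfl
  refine ⟨r, c₁, c₂, K, hr, hc₁, hc₂, hK, ?_⟩
  obtain ⟨g1, g2⟩ := huse (Regular r c₁ c₂ K) (by
    have hz : Tendsto (fun t : ℕ => (t : ℝ) ^ (1 / (r : ℝ))) atTop atTop :=
      (tendsto_rpow_atTop (by positivity)).comp tendsto_natCast_atTop_atTop
    filter_upwards [hz.eventually_ge_atTop 6] with t ht hreg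
    intro u v hu hv h1 h2
    obtain ⟨h3, h4⟩ := hreg u v hu hv (by rw [hcard]; exact h1) h2
    rw [hcard] at h3 h4
    refine ⟨h3.trans ?_, le_trans ?_ h4⟩
    · unfold sexy
      rw [← Set.ncard_coe_finset, Nat.cast_le]
      refine Set.ncard_le_ncard ?_ ((Set.finite_Iic v).subset fun p hp => hp.2.1)
      intro p hp
      rw [mem_coe, mem_filter, mem_Ioc] at hp
      have hzp := (hp.2.2.2.2 0 (by simp)).2 p hp.2.1 (by simp)
      have hp6 : 6 ≤ p := by
        have : (6 : ℝ) < p := lt_of_le_of_lt ht hzp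
        exact_mod_cast this.le
      obtain ⟨k1, k2, k3⟩ := sexy_of r _ p hp6 hp.2
      exact ⟨hp.1.1, hp.1.2, k1, k2, k3⟩
    · unfold sexy
      rw [← Set.ncard_coe_finset, Nat.cast_le]
      refine Set.ncard_le_ncard ?_ (Finset.finite_toSet _)
      rintro p ⟨k1, k2, k3, k4, k5⟩
      rw [mem_coe, mem_filter, mem_Ioc]
      refine ⟨⟨k1, k2⟩, ?_⟩
      intro t' ht' q hq hd
      rw [mem_insert, mem_singleton] at ht'
      rcases ht' with rfl | rfl
      · rw [add_zero] at hd
        rw [(Nat.prime_dvd_prime_iff_eq hq k3.1).1 hd]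
        exact k4
      · exact k5 q hq hd)
  refine ⟨g1, ?_⟩
  intro s hs
  have g3 := g2 s hs (fun _ p => Sexy p) (by
    filter_upwards [eventually_ge_atTop 6] with m hm t p _ hp hch
    have hms : m ≤ m ^ s := Nat.le_self_pow (by omega) m
    exact (sexy_of r _ p (by omega) hch).1)
  rw [hcard] at g3
  exact g3

end Pool.Agent.Results.MP_5628fe_nt.ChenSexyBetweenCubes
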