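import Mathlib
import Pool.Agent.N417.CL.S3

/-!
# Consecutive members with a fixed difference between consecutive powers: the critical density in random sets

A random set of integers is built one integer at a time, with arbitrary dependence.  For `s ≥ 2` and `h ≥ 1` let
`gaps s h n` be the number of the pairs `(p, p + h)` of consecutive chosen integers with `n ^ s < p` and
`p + h < (n + 1) ^ s` (`s = 3`, `h = 6` in the question).  The assertion of Question 2 (`gaps s h n → ∞`) is true if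
the conditional probabilities tend to `0` and are at least `κ √(log n) / n ^ ((s - 1) / (2 s))` with
`s ^ 2 κ ^ 2 > 1`; it is false, with value `0` infinitely often, if they are at most this with `s ^ 2 κ ^ 2 < 1`; and
if they are asymptotic to this, the set of the limit points of `gaps s h n / log n` is determined.
-/

set_option autoImplicit false

open MeasureTheory Filter Set ProbabilityTheory
open scoped Topology

namespace Pool.Agent.Results.MP_5628fe_nt.CriticalDensity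

variable {Ω : Type}

/-- the conditional probability of choosing `n + 1`, given the decisions up to `n` -/
noncomputable def P [m : MeasurableSpace Ω] (μ : Measure Ω) (ℱ : Filtration ℕ m) (A : ℕ → Set Ω) (n : ℕ) (ω : Ω) : ℝ :=
  (μ[(A (n + 1)).indicator (fun _ => (1 : ℝ)) | ℱ n]) ω

open Classical in
/-- the number of the pairs `(p, p + h)` of consecutive members of `S` with `n ^ s < p` and
`p + h < (n + 1) ^ s` -/
noncomputable def gaps (S : Set ℕ) (s h n : ℕ) : ℕ :=
  ((Finset.Ioo (n ^ s) ((n + 1) ^ s)).filter (fun p => p + h < (n + 1) ^ s ∧ p ∈ S ∧ p + h ∈ S ∧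
    ∀ q, p < q → q < p + h → q ∉ S)).card

/-- `x log x - x + 1` -/
noncomputable def H (x : ℝ) : ℝ := x * Real.log x - x + 1

/-- The limit points of the sequence `u` are exactly the points of `[a, b]`, and `u` is contained in every
larger open interval up to finitely many terms. -/
def LimitSet (u : ℕ → ℝ) (a b : ℝ) : Prop :=
  {x | MapClusterPt x atTop u} = Icc a b ∧ ∀ ε : ℝ, 0 < ε → ∀ᶠ n in atTop, a - ε < u n ∧ u n < b + ε

open Pool.Agent.N740.HK Pool.Agent.R528.RM Pool.Agent.N417.LD Pool.Agent.N417.CL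

lemma mem_BH (A : ℕ → Set Ω) {h t : ℕ} (_ : 1 ≤ h) (ω : Ω) : ω ∈ BH h A (t + 1) ↔
    h ≤ t + 1 ∧ ω ∈ A (t + 1) ∧ ω ∈ A (t + 1 - h) ∧ ∀ q, t + 1 - h < q → q < t + 1 → ω ∉ A q := by
  show ω ∈ A (t + 1) ∩ WH h A t ↔ _
  unfold WH
  by_cases h1 : h ≤ t + 1
  · rw [if_pos h1]
    simp only [mem_inter_iff, mem_iInter, mem_compl_iff, Finset.mem_Ioo]
    constructor
    · rintro ⟨a1, a2, a3⟩
      refine ⟨h1, a1, a2, fun q hq1 hq2 => ?_⟩
      have := a3 (t + 1 - q) ⟨by omega, by omega⟩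
      rwa [show t + 1 - (t + 1 - q) = q by omega] at this
    · rintro ⟨-, a1, a2, a3⟩
      exact ⟨a1, a2, fun i hi => a3 _ (by omega) (by omega)⟩
  · rw [if_neg h1]
    simp [h1]

lemma CN_card (A : ℕ → Set Ω) (T L : ℕ) (ω : Ω) : by
    classical
    exact CN A T L ω = (((Finset.range L).filter (fun i => ω ∈ A (T + i + 1))).card : ℝ) := by
  classical
  unfold CN J1
  rw [Finset.card_filter]
  push_cast
  refine Finset.sum_congr rfl fun i _ => ?_
  by_cases h : ω ∈ A (T + i + 1)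
  · rw [indicator_of_mem h, if_pos h]
  · rw [indicator_of_notMem h, if_neg h]

lemma gaps_bounds (A : ℕ → Set Ω) {s h : ℕ} (hs : 2 ≤ s) (hh : 1 ≤ h) (n : ℕ) (ω : Ω) :
    (gaps {k | ω ∈ A k} s h n : ℝ) ≤ CN (BH h A) (n ^ s) (Ls s n) ω ∧
    CN (BH h A) (n ^ s) (Ls s n) ω ≤ gaps {k | ω ∈ A k} s h n + h := by
  classical
  have hlt : n ^ s + 1 ≤ (n + 1) ^ s := Nat.pow_lt_pow_left (by omega) (by omega)
  have hL : Ls s n = (n + 1) ^ s - n ^ s - 1 := rfl
  rw [CN_card]
  unfold gaps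
  constructor
  · rw [Nat.cast_le]
    refine Finset.card_le_card_of_injOn (fun p => p + h - n ^ s - 1) ?_ ?_
    · intro p hp
      simp only [Finset.coe_filter, Finset.mem_Ioo, mem_ofPred_eq] at hp
      obtain ⟨⟨p1, p2⟩, p3, p4, p5, p6⟩ := hp
      simp only [Finset.coe_filter, Finset.mem_range, mem_ofPred_eq]
      refine ⟨by omega, ?_⟩
      rw [mem_BH A hh]
      rw [show n ^ s + (p + h - n ^ s - 1) + 1 = p + h by omega]
      refine ⟨by omega, p5, ?_, ?_⟩
      · rwa [show p + h - h = p by omega]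
      · intro q hq1 hq2
        exact p6 q (by omega) hq2
    · intro a ha b hb hab
      simp only [Finset.coe_filter, Finset.mem_Ioo, mem_ofPred_eq] at ha hb
      simp only at hab
      omega
  · have h1 : ((Finset.range (Ls s n)).filter (fun i => ω ∈ BH h A (n ^ s + i + 1))) ⊆
        Finset.range h ∪ (((Finset.Ioo (n ^ s) ((n + 1) ^ s)).filter (fun p => p + h < (n + 1) ^ s ∧
          p ∈ {k | ω ∈ A k} ∧ p + h ∈ {k | ω ∈ A k} ∧ ∀ q, p < q → q < p + h → q ∉ {k | ω ∈ A k})).image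
            (fun p => p + h - n ^ s - 1)) := by
      intro i hi
      simp only [Finset.mem_filter, Finset.mem_range] at hi
      obtain ⟨i1, i2⟩ := hi
      rw [mem_BH A hh] at i2
      obtain ⟨a1, a2, a3, a4⟩ := i2
      rw [Finset.mem_union]
      by_cases hi : i < h
      · left
        exact Finset.mem_range.2 hi
      · right
        rw [Finset.mem_image]
        refine ⟨n ^ s + i + 1 - h, ?_, by omega⟩
        simp only [Finset.mem_filter, Finset.mem_Ioo]
        refine ⟨⟨by omega, by omega⟩, by omega, a3, ?_, ?_⟩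
        · show ω ∈ A _
          rwa [show n ^ s + i + 1 - h + h = n ^ s + i + 1 by omega]
        · intro q hq1 hq2
          exact a4 q hq1 (by omega)
    have h2 := (Finset.card_le_card h1).trans ((Finset.card_union_le _ _).trans
      (Nat.add_le_add_left Finset.card_image_le _))
    rw [Finset.card_range, add_comm] at h2
    exact_mod_cast h2

lemma limitSet {u : ℕ → ℝ} {a b : ℝ}
    (h1 : ∀ x ∈ Icc a b, ∀ ε : ℝ, 0 < ε → ∀ K : ℕ, ∃ k, K ≤ k ∧ |u k - x| < ε)
    (h2 : ∀ ε : ℝ, 0 < ε → ∀ᶠ k : ℕ in atTop, ∃ x ∈ Icc a b, |u k - x| < ε) : LimitSet u a b := by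
  constructor
  · ext x
    simp only [mem_ofPred_eq]
    constructor
    · intro hx
      rw [← (isClosed_Icc (a := a) (b := b)).closure_eq, Metric.mem_closure_iff]
      intro ε hε
      have h3 := (mapClusterPt_iff_frequently.1 hx) (Metric.ball x (ε / 2)) (Metric.ball_mem_nhds _ (by positivity))
      obtain ⟨k, hk1, w, hw, hk2⟩ := (h3.and_eventually (h2 (ε / 2) (by positivity))).exists
      refine ⟨w, hw, ?_⟩
      rw [Metric.mem_ball, Real.dist_eq] at hk1
      rw [Real.dist_eq]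
      have h4 := abs_sub_le x (u k) w
      rw [abs_sub_comm x (u k)] at h4
      linarith
    · intro hx
      rw [mapClusterPt_iff_frequently]
      intro s hs
      obtain ⟨ε, hε, hs⟩ := Metric.mem_nhds_iff.1 hs
      rw [frequently_atTop]
      intro K
      obtain ⟨k, hk, hk2⟩ := h1 x hx ε hε K
      exact ⟨k, hk, hs (by rw [Metric.mem_ball, Real.dist_eq]; exact hk2)⟩
  · intro ε hε
    filter_upwards [h2 ε hε] with k hk
    obtain ⟨x, ⟨hx1, hx2⟩, hk⟩ := hk
    rw [abs_lt] at hk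
    constructor <;> linarith

end Pool.Agent.Results.MP_5628fe_nt.CriticalDensity

open Pool.Agent.Results.MP_5628fe_nt.CriticalDensity Pool.Agent.N740.HK Pool.Agent.R528.RM Pool.Agent.N417.LD
  Pool.Agent.N417.CL

/-- Let `S` be the random set of the chosen integers, `P n` the conditional probability of choosing `n + 1`,
given the decisions up to `n`, `s ≥ 2`, `h ≥ 1`, `e = (s - 1) / (2 s)`, and let `gaps S s h n` be the number of the
pairs `(p, p + h)` of consecutive members of `S` with `n ^ s < p` and `p + h < (n + 1) ^ s`.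
(1) If, almost surely, `P n → 0` and `P n ≥ κ √(log n) / n ^ e` for all large `n`, for some `κ > 0` with
`s ^ 2 κ ^ 2 > 1`, then, almost surely, `gaps S s h n → ∞`.
(2) If, almost surely, `P n ≤ κ √(log n) / n ^ e` for all large `n`, for some `κ > 0` with `s ^ 2 κ ^ 2 < 1`, then,
almost surely, `gaps S s h n = 0` for infinitely many `n`.
(3) If, almost surely, `P n` is asymptotic to `κ √(log n) / n ^ e`, `κ > 0`, then, almost surely, the limit points
of `gaps S s h n / (s ^ 2 κ ^ 2 log n)` are exactly the points of the interval `[a, b]`, where `b > 1`,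
`s ^ 2 κ ^ 2 H b = 1`, `H x = x log x - x + 1`, and `0 ≤ a < 1`, `a = 0` if `s ^ 2 κ ^ 2 ≤ 1` and
`s ^ 2 κ ^ 2 H a = 1` if `s ^ 2 κ ^ 2 > 1`. -/
theorem Pool.Agent.Results.MP_5628fe_nt.CriticalDensity.result
    {Ω : Type} [m : MeasurableSpace Ω] (μ : Measure Ω) [IsProbabilityMeasure μ] (A : ℕ → Set Ω) (ℱ : Filtration ℕ m)
    (hA : ∀ n, MeasurableSet[ℱ n] (A n)) (s h : ℕ) (hs : 2 ≤ s) (hh : 1 ≤ h) :
    (∀ κ : ℝ, 0 < κ → 1 < (s : ℝ) ^ 2 * κ ^ 2 →
      (∀ᵐ ω ∂μ, Tendsto (fun n => P μ ℱ A n ω) atTop (𝓝 0)) →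
      (∀ᵐ ω ∂μ, ∀ᶠ n : ℕ in atTop, κ ≤ P μ ℱ A n ω * (n : ℝ) ^ (((s : ℝ) - 1) / (2 * s)) / √(Real.log n)) →
        ∀ᵐ ω ∂μ, Tendsto (fun n => gaps {k | ω ∈ A k} s h n) atTop atTop) ∧
    (∀ κ : ℝ, 0 < κ → (s : ℝ) ^ 2 * κ ^ 2 < 1 →
      (∀ᵐ ω ∂μ, ∀ᶠ n : ℕ in atTop, P μ ℱ A n ω * (n : ℝ) ^ (((s : ℝ) - 1) / (2 * s)) / √(Real.log n) ≤ κ) →
        ∀ᵐ ω ∂μ, ∃ᶠ n in atTop, gaps {k | ω ∈ A k} s h n = 0) ∧
    (∀ κ : ℝ, 0 < κ → ∃ a b : ℝ, (0 ≤ a ∧ a < 1 ∧ 1 < b ∧ (s : ℝ) ^ 2 * κ ^ 2 * H b = 1 ∧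
        ((s : ℝ) ^ 2 * κ ^ 2 ≤ 1 → a = 0) ∧ (1 < (s : ℝ) ^ 2 * κ ^ 2 → (s : ℝ) ^ 2 * κ ^ 2 * H a = 1)) ∧
      ((∀ᵐ ω ∂μ, Tendsto (fun n : ℕ => P μ ℱ A n ω * (n : ℝ) ^ (((s : ℝ) - 1) / (2 * s)) / √(Real.log n)) atTop (𝓝 κ)) →
        ∀ᵐ ω ∂μ, LimitSet (fun n => gaps {k | ω ∈ A k} s h n / ((s : ℝ) ^ 2 * κ ^ 2 * Real.log n)) a b)) := by
  have hs' : (0 : ℝ) < s := by exact_mod_cast (by omega : 0 < s)
  refine ⟨?_, ?_, ?_⟩
  · intro κ hκ hκ1 h0 hd
    filter_upwards [gap_inf hA hs hh hκ hκ1 hd h0] with ω hω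
    rw [tendsto_atTop]
    intro m
    filter_upwards [hω (m + h)] with n hn
    have h1 := (gaps_bounds A hs hh n ω).2
    push_cast at hn
    have h2 : (m : ℝ) < gaps {k | ω ∈ A k} s h n := by linarith
    exact_mod_cast h2.le
  · intro κ hκ hκ1 hd
    filter_upwards [gap_zero hA hs hh hκ hκ1 hd] with ω hω
    rw [frequently_atTop]
    intro K
    obtain ⟨n, hn, h0⟩ := hω K
    refine ⟨n, hn, ?_⟩
    have h1 := (gaps_bounds A hs hh n ω).1
    rw [h0] at h1
    have h2 : (gaps {k | ω ∈ A k} s h n : ℝ) = 0 := le_antisymm h1 (Nat.cast_nonneg _)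
    exact_mod_cast h2
  · intro κ hκ
    have hc : 0 < (s : ℝ) ^ 2 * κ ^ 2 := by positivity
    obtain ⟨a, b, ha0, ha1, hb1, hb2, ha2, ha3, hab⟩ := interval hc
    refine ⟨a, b, ⟨ha0, ha1, hb1, hb2, ha2, fun h => (ha3 h).2⟩, fun hd => ?_⟩
    filter_upwards [gap_law hA hs hh hκ hd] with ω hω
    set c : ℝ := (s : ℝ) ^ 2 * κ ^ 2 with hcdef
    have close : ∀ {n : ℕ} {x ε : ℝ}, 0 < ε → 2 * h / (c * ε) ≤ Real.log n → 0 < Real.log n →
        |CN (BH h A) (n ^ s) (Ls s n) ω / Real.log n - c * x| < c * ε / 2 →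
        |gaps {k | ω ∈ A k} s h n / (c * Real.log n) - x| < ε := by
      intro n x ε hε hL hL0 h2
      obtain ⟨b1, b2⟩ := gaps_bounds A hs hh n ω
      set C := CN (BH h A) (n ^ s) (Ls s n) ω
      set R : ℝ := ((gaps {k | ω ∈ A k} s h n : ℕ) : ℝ)
      have e : R / (c * Real.log n) - x = ((R - C) / Real.log n + (C / Real.log n - c * x)) / c := by
        field_simp
        ring
      rw [e, abs_div, abs_of_pos hc, div_lt_iff₀ hc]
      have h4 : |(R - C) / Real.log n| ≤ c * ε / 2 := by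
        rw [abs_div, abs_of_pos hL0, div_le_iff₀ hL0]
        rw [div_le_iff₀ (by positivity)] at hL
        rw [abs_le]
        constructor <;> nlinarith
      have h5 := abs_add_le ((R - C) / Real.log n) (C / Real.log n - c * x)
      linarith
    refine limitSet ?_ ?_
    · intro x hx ε hε K
      obtain ⟨hx0, hx1⟩ := (hab x).2 hx
      obtain ⟨k1, hk1⟩ := eventually_atTop.1 (tendsto_logN.eventually_ge_atTop (2 * h / (c * ε)))
      obtain ⟨k2, hk2⟩ := eventually_atTop.1 (tendsto_logN.eventually_gt_atTop 0)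
      obtain ⟨k, hk, b1⟩ := hω.1 x hx0 hx1 (c * ε / 2) (by positivity) (max K (max k1 k2))
      have hkK : K ≤ k := (le_max_left _ _).trans hk
      have hkk : k1 ≤ k := ((le_max_left _ _).trans (le_max_right _ _)).trans hk
      have hk3 : k2 ≤ k := ((le_max_right _ _).trans (le_max_right _ _)).trans hk
      exact ⟨k, hkK, close hε (hk1 k hkk) (hk2 k hk3) b1⟩
    · intro ε hε
      filter_upwards [hω.2 (c * ε / 2) (by positivity), tendsto_logN.eventually_ge_atTop (2 * h / (c * ε)),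
        tendsto_logN.eventually_gt_atTop 0] with k hk hL hk2
      obtain ⟨x, hx0, hx1, b1⟩ := hk
      exact ⟨x, (hab x).1 ⟨hx0, hx1⟩, close hε hL hk2 b1⟩
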