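import Mathlib
import Pool.Agent.X34.E.E20
import Pool.Agent.X34.E.E4

/-!
# Many consecutive primes with one and the same difference `6 k` between consecutive cubes

The question is whether there are two consecutive primes `p`, `p + 6` (even many such pairs) between
`n ^ 3` and `(n + 1) ^ 3` for every `n ≥ 3`. Here the difference `6` is replaced by one of the
multiples `6 k`, `k ≤ 73`, the same for all pairs, and all `n` by a positive proportion of the `n`:
for these `n` there are at least `c n ^ 2 / (log n) ^ 45` such pairs between `n ^ 3` and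
`(n + 1) ^ 3`. The same is proved for all consecutive powers `n ^ s`, `(n + 1) ^ s`, `s ≥ 2`, and for
the primes in a residue class modulo any multiple `M` of `6`, with the differences `k M`.

The count between consecutive powers is the theorem `powers_pos` of the starting file
`Pool/Agent/X34/E/E20.lean`, which no result used.
-/

set_option autoImplicit false

open Finset Filter

namespace Pool.Agent.Results.MP_5628fe_nt.SameGapBetweenPowers

/-- The number of the pairs of consecutive primes `p`, `p + h` with `n ^ s < p < p + h < (n + 1) ^ s`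
and `p ≡ a (mod M)`. -/
noncomputable def pairs (s M a h n : ℕ) : ℕ :=
  Set.ncard {p : ℕ | n ^ s < p ∧ p + h < (n + 1) ^ s ∧ p ≡ a [MOD M] ∧ p.Prime ∧ (p + h).Prime ∧
    ∀ m, p < m → m < p + h → ¬ m.Prime}

/-- The number of the `n`, `N ≤ n < 2 N`, for which there are at least
`c n ^ (s - 1) / (log n) ^ 45` such pairs. -/
noncomputable def good (c : ℝ) (s M a h N : ℕ) : ℕ :=
  Set.ncard {n : ℕ | N ≤ n ∧ n < 2 * N ∧
    c * (n : ℝ) ^ (s - 1) / Real.log n ^ 45 ≤ (pairs s M a h n : ℝ)}

/-- an admissible set for the primes `≥ 5` -/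
def G : Finset ℕ := {0, 1, 2, 3, 5, 7, 8, 11, 12, 15, 16, 17, 18, 21, 22, 25, 26, 28, 30, 32, 33, 35,
  37, 38, 40, 43, 45, 46, 47, 50, 51, 52, 56, 57, 58, 60, 63, 65, 66, 67, 68, 70, 71, 72, 73}

theorem G_card : G.card = 45 := by decide

theorem G_le : ∀ g ∈ G, g ≤ 73 := by decide

theorem G_adm (p : ℕ) (hp : p.Prime) (h2 : p ≠ 2) (h3 : p ≠ 3) : ∃ r : ℕ, ∀ g ∈ G, ¬ p ∣ r + g := by
  rcases lt_or_ge p 46 with h | h
  · interval_cases p
    · exact absurd hp (by norm_num)
    · exact absurd hp (by norm_num)
    · exact absurd rfl h2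
    · exact absurd rfl h3
    · exact absurd hp (by norm_num)
    · exact ⟨1, by decide⟩
    · exact absurd hp (by norm_num)
    · exact ⟨1, by decide⟩
    · exact absurd hp (by norm_num)
    · exact absurd hp (by norm_num)
    · exact absurd hp (by norm_num)
    · exact ⟨2, by decide⟩
    · exact absurd hp (by norm_num)
    · exact ⟨3, by decide⟩
    · exact absurd hp (by norm_num)
    · exact absurd hp (by norm_num)
    · exact absurd hp (by norm_num)
    · exact ⟨7, by decide⟩
    · exact absurd hp (by norm_num)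
    · exact ⟨15, by decide⟩
    · exact absurd hp (by norm_num)
    · exact absurd hp (by norm_num)
    · exact absurd hp (by norm_num)
    · exact ⟨10, by decide⟩
    · exact absurd hp (by norm_num)
    · exact absurd hp (by norm_num)
    · exact absurd hp (by norm_num)
    · exact absurd hp (by norm_num)
    · exact absurd hp (by norm_num)
    · exact ⟨5, by decide⟩
    · exact absurd hp (by norm_num)
    · exact ⟨7, by decide⟩
    · exact absurd hp (by norm_num)
    · exact absurd hp (by norm_num)
    · exact absurd hp (by norm_num)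
    · exact absurd hp (by norm_num)
    · exact absurd hp (by norm_num)
    · exact ⟨10, by decide⟩
    · exact absurd hp (by norm_num)
    · exact absurd hp (by norm_num)
    · exact absurd hp (by norm_num)
    · exact ⟨2, by decide⟩
    · exact absurd hp (by norm_num)
    · exact ⟨1, by decide⟩
    · exact absurd hp (by norm_num)
    · exact absurd hp (by norm_num)
  · by_contra hcon
    push Not at hcon
    have h1 : ∀ r ∈ Finset.range p, ∃ g ∈ G, (p - g % p) % p = r := by
      intro r hr
      obtain ⟨g, hg, hd⟩ := hcon r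
      refine ⟨g, hg, ?_⟩
      rw [Finset.mem_range] at hr
      have h4 : (r + g) % p = 0 := Nat.mod_eq_zero_of_dvd hd
      have h5 : (r + g % p) % p = 0 := by rw [Nat.add_mod_mod]; exact h4
      have h6 : g % p < p := Nat.mod_lt _ hp.pos
      rcases Nat.eq_zero_or_pos (g % p) with h0 | h0
      · rw [h0] at h5 ⊢
        rw [add_zero, Nat.mod_eq_of_lt hr] at h5
        rw [h5, Nat.sub_zero, Nat.mod_self]
      · have h7 : r + g % p = p := by
          obtain ⟨t, ht⟩ := Nat.dvd_of_mod_eq_zero h5
          have h8 : 0 < t := by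
            rcases Nat.eq_zero_or_pos t with h9 | h9
            · rw [h9, mul_zero] at ht; omega
            · exact h9
          have h9 : t < 2 := by
            by_contra h10
            push Not at h10
            have : p * 2 ≤ p * t := Nat.mul_le_mul_left _ h10
            omega
          have h10 : t = 1 := by omega
          rw [h10, mul_one] at ht
          exact ht
        rw [Nat.mod_eq_of_lt (by omega)]
        omega
    have h2' : Finset.range p ⊆ G.image (fun g => (p - g % p) % p) := by
      intro r hr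
      obtain ⟨g, hg, h3'⟩ := h1 r hr
      exact Finset.mem_image.2 ⟨g, hg, h3'⟩
    have h3' := (Finset.card_le_card h2').trans Finset.card_image_le
    rw [Finset.card_range, G_card] at h3'
    omega

/-- **Consecutive primes with one and the same difference between consecutive powers.** Let `s ≥ 2`, let
`M` be a multiple of `6` and `a` prime to `M` (for instance `s = 3` and `M = 6`). There is `c > 0`
such that for all large `N` there is `1 ≤ k ≤ 73` such that for at least `c N` of the `n`, `N ≤ n < 2 N`,
there are at least `c n ^ (s - 1) / (log n) ^ 45` pairs of consecutive primes `p`, `p + k M`,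
`p ≡ a (mod M)`, between `n ^ s` and `(n + 1) ^ s`. One `k` has this property for arbitrarily large `N`. -/
theorem result (s M a : ℕ) (hs : 2 ≤ s) (hM0 : 0 < M) (hM : 6 ∣ M) (ha : a.Coprime M) :
    ∃ c : ℝ, 0 < c ∧
      (∀ᶠ N : ℕ in atTop, ∃ k : ℕ, 1 ≤ k ∧ k ≤ 73 ∧ c * N ≤ (good c s M a (k * M) N : ℝ)) ∧
      ∃ k : ℕ, 1 ≤ k ∧ k ≤ 73 ∧ ∃ᶠ N : ℕ in atTop, c * N ≤ (good c s M a (k * M) N : ℝ) := by
  obtain ⟨c, hc, h⟩ := Pool.Agent.X34.E.powers_pos Pool.Agent.X34.E.dhl45R s hs M a hM0 ha G G_card
    (fun p hp hpM => G_adm p hp (fun h2 => hpM (h2 ▸ (Dvd.dvd.trans (by norm_num) hM)))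
      (fun h3 => hpM (h3 ▸ (Dvd.dvd.trans (by norm_num) hM))))
  have hall : ∀ᶠ N : ℕ in atTop, ∃ k : ℕ, 1 ≤ k ∧ k ≤ 73 ∧ c * N ≤ (good c s M a (k * M) N : ℝ) := by
    filter_upwards [h] with N hN
    obtain ⟨g, hg, g', hg', hgg, hN⟩ := hN
    have h106 := G_le g' hg'
    refine ⟨g' - g, by omega, by omega, hN.trans ?_⟩
    unfold good pairs
    rw [Nat.cast_le]
    refine Set.ncard_le_ncard (fun n hn => ⟨hn.1, hn.2.1, hn.2.2.trans ?_⟩)
      ((Set.finite_lt_nat (2 * N)).subset fun n hn => hn.2.1)
    rw [Nat.cast_le]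
    refine Set.ncard_le_ncard (fun p hp => ⟨hp.1, hp.2.1, hp.2.2.1, hp.2.2.2.1, hp.2.2.2.2.1,
      hp.2.2.2.2.2⟩) ((Set.finite_lt_nat ((n + 1) ^ s)).subset fun p hp => ?_)
    have h1 := hp.2.1
    show p < (n + 1) ^ s
    omega
  refine ⟨c, hc, hall, ?_⟩
  by_contra hcon
  push Not at hcon
  have h2 : ∀ k ∈ Finset.Icc 1 73, ∀ᶠ N : ℕ in atTop, ¬ c * N ≤ (good c s M a (k * M) N : ℝ) := by
    intro k hk
    rw [Finset.mem_Icc] at hk
    have h3 := hcon k hk.1 hk.2
    filter_upwards [h3] with N hN
    exact not_le.2 hN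
  have h3 := (Filter.eventually_all_finset _).2 h2
  obtain ⟨N, hN1, hN2⟩ := (hall.and h3).exists
  obtain ⟨k, hk1, hk2, hk3⟩ := hN1
  exact hN2 k (Finset.mem_Icc.2 ⟨hk1, hk2⟩) hk3

end Pool.Agent.Results.MP_5628fe_nt.SameGapBetweenPowers
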