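import Mathlib
import Pool.Agent.N893.SM.Tup

set_option autoImplicit false

/-!
# Gap patterns between consecutive powers in all sieved sequential random models of the primes

The integers are decided one after the other; the multiples of the primes of a finite set `Q` are
never chosen and the conditional probability of choosing an integer `n + 1` which is not such a
multiple, given the decisions up to `n`, is asymptotic to `∏_{p ∈ Q} (1 - 1 / p)⁻¹ / log n`, almost
surely.  No independence and no rate of convergence are assumed.  Almost surely every pattern of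
consecutive chosen integers has its expected frequency in all intervals `(x, x + y]` with
`x ^ δ ≤ y ≤ x`, so between all large consecutive `s`-th powers.
-/

open MeasureTheory Filter Set
open scoped Topology

namespace Pool.Agent.Results.MP_5628fe_nt.SievedModels

/-- `A n` is the event that `n` is chosen; adapted to `ℱ`; multiples of the primes in `Q` are not
chosen; the conditional probability of `A (n + 1)` given `ℱ n`, times `log n`, tends almost surely to
`∏_{p ∈ Q} (1 - 1 / p)⁻¹` along the `n` such that no `p ∈ Q` divides `n + 1` -/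
def SievedModel {Ω : Type} [m : MeasurableSpace Ω] (μ : Measure Ω) (ℱ : Filtration ℕ m)
    (A : ℕ → Set Ω) (Q : Finset ℕ) : Prop :=
  (∀ n, MeasurableSet[ℱ n] (A n)) ∧ (∀ n, (∃ p ∈ Q, p ∣ n) → A n = ∅) ∧
  ∀ᵐ ω ∂μ, Tendsto (fun n : ℕ => (μ[(A (n + 1)).indicator (fun _ => (1 : ℝ)) | ℱ n]) ω * Real.log n)
    (atTop ⊓ 𝓟 {n : ℕ | ∀ p ∈ Q, ¬ p ∣ n + 1}) (𝓝 (∏ p ∈ Q, (1 - 1 / (p : ℝ))⁻¹))

/-- the number of the `p`, `x < p ≤ x + y`, for which the elements of `S` in `[p, p + max D]` are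
exactly the `p + d`, `d ∈ D` -/
noncomputable def pattern (S : Set ℕ) (D : Finset ℕ) (x y : ℕ) : ℕ :=
  {p : ℕ | x < p ∧ p ≤ x + y ∧ ∀ i ≤ D.sup id, (p + i ∈ S ↔ i ∈ D)}.ncard

/-- the number of the `p` with `n ^ s < p` and `p + max D < (n + 1) ^ s` for which the elements of
`S` in `[p, p + max D]` are exactly the `p + d`, `d ∈ D` -/
noncomputable def between (S : Set ℕ) (D : Finset ℕ) (s n : ℕ) : ℕ :=
  {p : ℕ | n ^ s < p ∧ p + D.sup id < (n + 1) ^ s ∧ ∀ i ≤ D.sup id, (p + i ∈ S ↔ i ∈ D)}.ncard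

/-- `S(n)` of the page, with the elements of `S` for the primes: the number of pairs `(p, p + 6)` of
consecutive elements of `S` with `n ^ 3 < p < p + 6 < (n + 1) ^ 3` -/
noncomputable def sexy (S : Set ℕ) (n : ℕ) : ℕ :=
  {p : ℕ | p ∈ S ∧ p + 6 ∈ S ∧ (∀ q, p < q → q < p + 6 → q ∉ S) ∧ n ^ 3 < p ∧
    p + 6 < (n + 1) ^ 3}.ncard

/-- the factors of the singular series at the primes of `Q` -/
noncomputable def sing (Q D : Finset ℕ) : ℝ :=
  ∏ p ∈ Q, (1 - ((D.image (· % p)).card : ℝ) / p) * ((1 - 1 / (p : ℝ)) ^ D.card)⁻¹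

open Pool.Agent.R528.RM Pool.Agent.N893.SM

variable {Ω : Type}

/-- the shifted pattern -/
def sh (x : ℕ) (D : Finset ℕ) : Finset ℕ := D.image (fun d => x + d)

lemma sh_card (x : ℕ) (D : Finset ℕ) : (sh x D).card = D.card :=
  Finset.card_image_of_injective _ (fun a b h => by simpa using h)

lemma prod_sh (x : ℕ) (D : Finset ℕ) (f : ℕ → ℝ) : ∏ h ∈ sh x D, f h = ∏ d ∈ D, f (x + d) := by
  unfold sh
  rw [Finset.prod_image (fun a _ b _ h => by simpa using h)]

/-- the true number of tuples -/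
noncomputable def T (A : ℕ → Set Ω) (ω : Ω) (D : Finset ℕ) (x y : ℕ) : Finset ℕ := by
  classical
  exact (Finset.Ioc x (x + y)).filter (fun p => ∀ d ∈ D, ω ∈ A (p + d))

lemma T_eq (A : ℕ → Set Ω) (ρ : ℕ → ℝ) (ω : Ω) (D : Finset ℕ) (x y : ℕ) :
    TN A ρ y (sh x D) ∅ ω = ((T A ω D x y).card : ℝ) := by
  classical
  unfold TN T
  simp only [Finset.prod_empty, mul_one]
  have h1 : ∀ n, (∏ h ∈ sh x D, In A (n + 1 + h) ω) =
      if (∀ d ∈ D, ω ∈ A (n + (x + 1) + d)) then (1 : ℝ) else 0 := by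
    intro n
    rw [prod_sh x D (fun h => In A (n + 1 + h) ω)]
    by_cases h : ∀ d ∈ D, ω ∈ A (n + (x + 1) + d)
    · rw [if_pos h]
      refine Finset.prod_eq_one fun d hd => ?_
      unfold In
      rw [show n + 1 + (x + d) = n + (x + 1) + d by ring]
      exact indicator_of_mem (h d hd) _
    · rw [if_neg h]
      push Not at h
      obtain ⟨d, hd, hn⟩ := h
      refine Finset.prod_eq_zero hd ?_
      unfold In
      rw [show n + 1 + (x + d) = n + (x + 1) + d by ring]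
      exact indicator_of_notMem hn _
  simp_rw [h1]
  rw [Finset.sum_boole]
  congr 1
  refine Finset.card_bij (fun n _ => n + (x + 1)) ?_ ?_ ?_
  · intro n hn
    simp only [Finset.mem_filter, Finset.mem_range] at hn
    simp only [Finset.mem_filter, Finset.mem_Ioc]
    exact ⟨⟨by omega, by omega⟩, hn.2⟩
  · intro a _ b _ h
    simpa using h
  · intro p hp
    simp only [Finset.mem_filter, Finset.mem_Ioc] at hp
    refine ⟨p - (x + 1), ?_, by omega⟩
    simp only [Finset.mem_filter, Finset.mem_range]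
    refine ⟨by omega, ?_⟩
    rw [show p - (x + 1) + (x + 1) = p by omega]
    exact hp.2

/-- the expected number of tuples -/
noncomputable def E (W : ℕ) (D : Finset ℕ) (x y : ℕ) : ℝ :=
  ∑ n ∈ Finset.range y, ∏ d ∈ D, rhoW W (n + 1 + (x + d))

lemma E_eq (A : ℕ → Set Ω) (W : ℕ) (ω : Ω) (D : Finset ℕ) (x y : ℕ) :
    TN A (rhoW W) y ∅ (sh x D) ω = E W D x y := by
  unfold TN E
  simp only [Finset.prod_empty, one_mul]
  refine Finset.sum_congr rfl fun n _ => ?_
  exact prod_sh x D (fun h => rhoW W (n + 1 + h))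

lemma E_nonneg (W : ℕ) (D : Finset ℕ) (x y : ℕ) : 0 ≤ E W D x y :=
  Finset.sum_nonneg fun _ _ => Finset.prod_nonneg fun _ _ => rhoW_nonneg W _

lemma T_zero {A : ℕ → Set Ω} {Q D : Finset ℕ} (hQ : ∀ p ∈ Q, p.Prime)
    (hcop : ∀ n, (∃ p ∈ Q, p ∣ n) → A n = ∅) (ω : Ω) (x y : ℕ) (h : singH Q (sh x D) = 0) :
    (T A ω D x y).card = 0 := by
  classical
  obtain ⟨p, hp, ho⟩ := singH_zero hQ h
  rw [Finset.card_eq_zero, Finset.eq_empty_iff_forall_notMem]
  intro r hr
  unfold T at hr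
  simp only [Finset.mem_filter, Finset.mem_Ioc] at hr
  obtain ⟨a, ha, hd⟩ := occ_full (hQ p hp).pos ho (r - x)
  unfold sh at ha
  obtain ⟨d, hd1, rfl⟩ := Finset.mem_image.1 ha
  have h1 := hr.2 d hd1
  rw [show r - x + (x + d) = r + d by omega] at hd
  rw [hcop (r + d) ⟨p, hp, hd⟩] at h1
  exact h1

lemma E_zero {Q D : Finset ℕ} (hQ : ∀ p ∈ Q, p.Prime) (x y : ℕ) (h : singH Q (sh x D) = 0) :
    E (∏ p ∈ Q, p) D x y = 0 := by
  classical
  obtain ⟨p, hp, ho⟩ := singH_zero hQ h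
  unfold E
  refine Finset.sum_eq_zero fun n _ => ?_
  obtain ⟨a, ha, hd⟩ := occ_full (hQ p hp).pos ho (n + 1)
  unfold sh at ha
  obtain ⟨d, hd1, rfl⟩ := Finset.mem_image.1 ha
  refine Finset.prod_eq_zero hd1 ?_
  unfold rhoW
  rw [if_neg]
  rw [coprime_prod_iff Q hQ]
  intro h1
  exact h1 p hp hd

/-- the law for short intervals with the sum as main term -/
lemma law {m0 : MeasurableSpace Ω} {μ : Measure Ω} [IsProbabilityMeasure μ] {ℱ : Filtration ℕ m0}
    {A : ℕ → Set Ω} (hA : ∀ n, MeasurableSet[ℱ n] (A n)) (Q : Finset ℕ) (hQ : ∀ p ∈ Q, p.Prime)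
    (hcop : ∀ n, (∃ p ∈ Q, p ∣ n) → A n = ∅)
    (hd : ∀ᵐ ω ∂μ, Tendsto (fun n : ℕ => dens μ ℱ A n ω * Real.log n)
      (atTop ⊓ 𝓟 {n : ℕ | ∀ p ∈ Q, ¬ p ∣ n + 1}) (𝓝 (∏ p ∈ Q, (1 - 1 / (p : ℝ))⁻¹))) :
    ∀ᵐ ω ∂μ, ∀ (C : ℕ) (D : Finset ℕ) (ε : ℝ), 0 < ε → ∀ᶠ y : ℕ in atTop, ∀ x ≤ y ^ C,
      |((T A ω D x y).card : ℝ) - E (∏ p ∈ Q, p) D x y| ≤ ε * E (∏ p ∈ Q, p) D x y := by
  classical
  filter_upwards [tup_ratio (μ := μ) hA Q hQ hcop hd] with ω hω C D ε hε
  filter_upwards [hω (C + 1) D.card ε hε, eventually_ge_atTop (D.sup id + 1)] with y h1 h2 x hx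
  by_cases hs : singH Q (sh x D) = 0
  · rw [T_zero hQ hcop ω x y hs, E_zero hQ x y hs]
    simp
  · have h3 := h1 (sh x D) ?_ (sh_card x D) hs
    · rw [T_eq, E_eq] at h3
      exact h3
    · intro a ha
      unfold sh at ha
      obtain ⟨d, hd1, rfl⟩ := Finset.mem_image.1 ha
      have h4 : d ≤ D.sup id := Finset.le_sup (f := id) hd1
      rw [Finset.mem_range]
      have h5 : 1 ≤ y ^ C := Nat.one_le_pow _ _ (by omega)
      have h6 : y ^ (C + 1) = y ^ C * y := pow_succ y C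
      have h7 : y ^ C * (D.sup id + 1) ≤ y ^ C * y := Nat.mul_le_mul_left _ h2
      have h8 : D.sup id ≤ y ^ C * D.sup id := Nat.le_mul_of_pos_left _ h5
      rw [mul_add, mul_one] at h7
      omega

/-- the main term -/
lemma E_asymp (Q : Finset ℕ) (hQ : ∀ p ∈ Q, p.Prime) (D : Finset ℕ) {ε : ℝ} (hε : 0 < ε) :
    ∀ᶠ y : ℕ in atTop, ∀ x ≥ y,
      |E (∏ p ∈ Q, p) D x y * Real.log x ^ D.card / y - singH Q D| ≤ ε := by
  classical
  set W := ∏ p ∈ Q, p with hWdef
  have hW : 0 < W := Finset.prod_pos fun q hq => (hQ q hq).pos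
  have hW' : (0 : ℝ) < W := by exact_mod_cast hW
  set c := (W : ℝ) / Nat.totient W with hc
  have hcpos : 0 < c := div_pos hW' (by exact_mod_cast Nat.totient_pos.2 hW)
  set k := D.card with hk
  have hck : 0 < c ^ k := pow_pos hcpos k
  have hlog : Tendsto (fun x : ℕ => Real.log (x : ℝ)) atTop atTop :=
    Real.tendsto_log_atTop.comp tendsto_natCast_atTop_atTop
  have t1 : Tendsto (fun y : ℕ => c ^ k * ((2 * W : ℝ) / y)) atTop (𝓝 0) := by
    have := (tendsto_const_nhds (x := (2 * W : ℝ))).div_atTop (tendsto_natCast_atTop_atTop (R := ℝ))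
    have h3 := this.const_mul (c ^ k)
    rwa [mul_zero] at h3
  have t2 : Tendsto (fun x : ℕ => c ^ k * (1 - (Real.log x / (Real.log x + Real.log 3)) ^ k)) atTop
      (𝓝 0) := by
    have g1 : Tendsto (fun x : ℕ => Real.log x / (Real.log x + Real.log 3)) atTop (𝓝 1) := by
      have g2 : Tendsto (fun x : ℕ => 1 - Real.log 3 / (Real.log x + Real.log 3)) atTop
          (𝓝 (1 - 0)) :=
        tendsto_const_nhds.sub (tendsto_const_nhds.div_atTop (tendsto_atTop_add_const_right _ _ hlog))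
      rw [sub_zero] at g2
      refine g2.congr' ?_
      filter_upwards [eventually_ge_atTop 1] with x hx
      have h1 : 0 ≤ Real.log (x : ℝ) := Real.log_natCast_nonneg x
      have h2 : 0 < Real.log 3 := Real.log_pos (by norm_num)
      have h3 : Real.log (x : ℝ) + Real.log 3 ≠ 0 := by positivity
      field_simp
      ring
    have g3 := (tendsto_const_nhds (x := (1 : ℝ)).sub (g1.pow k)).const_mul (c ^ k)
    rw [one_pow, sub_self, mul_zero] at g3
    exact g3
  obtain ⟨x₀, hx₀⟩ := eventually_atTop.1 (((t2.eventually (gt_mem_nhds (show (0 : ℝ) < ε / 2 by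
    positivity))).and (hlog.eventually_ge_atTop c)).and (eventually_ge_atTop (max 3 (D.sup id))))
  filter_upwards [t1.eventually (gt_mem_nhds (show (0 : ℝ) < ε / 2 by positivity)),
    eventually_ge_atTop x₀, eventually_ge_atTop 1] with y hy1 hy2 hy3 x hxy
  obtain ⟨⟨hx1, hx2⟩, hx3⟩ := hx₀ x (hy2.trans hxy)
  have hx4 : 3 ≤ x := (le_max_left _ _).trans hx3
  have hx5 : D.sup id ≤ x := (le_max_right _ _).trans hx3
  have hy' : (0 : ℝ) < y := by exact_mod_cast hy3
  have hx' : (3 : ℝ) ≤ x := by exact_mod_cast hx4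
  set L := Real.log (x : ℝ) with hL
  have hL0 : 0 < L := Real.log_pos (by linarith)
  have hl3 : 0 < Real.log 3 := Real.log_pos (by norm_num)
  set a : ℕ → ℝ := fun n => if good (PH D) W n then 1 else 0 with ha
  have e1 : E W D x y = ∑ n ∈ Finset.range y, a (n + (x + 1)) * ∏ d ∈ D, bb c (n + 1 + (x + d)) := by
    unfold E
    refine Finset.sum_congr rfl fun n _ => ?_
    simp only [ha]
    by_cases h : good (PH D) W (n + (x + 1))
    · have h4 := (good_PH D W (n + (x + 1))).1 h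
      rw [if_pos h, one_mul]
      refine Finset.prod_congr rfl fun d hd => ?_
      unfold rhoW bb
      have h5 := h4 d hd
      rw [show n + (x + 1) + d = n + 1 + (x + d) by ring] at h5
      rw [if_pos h5]
    · rw [if_neg h, zero_mul]
      rw [good_PH] at h
      push Not at h
      obtain ⟨d, hd, hn⟩ := h
      refine Finset.prod_eq_zero hd ?_
      unfold rhoW
      rw [show n + (x + 1) + d = n + 1 + (x + d) by ring] at hn
      rw [if_neg hn]
  have e2 : ∀ n ∈ Finset.range y, (c / (L + Real.log 3)) ^ k ≤ ∏ d ∈ D, bb c (n + 1 + (x + d)) ∧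
      ∏ d ∈ D, bb c (n + 1 + (x + d)) ≤ (c / L) ^ k := by
    intro n hn
    rw [Finset.mem_range] at hn
    have h1 : ∀ d ∈ D, c / (L + Real.log 3) ≤ bb c (n + 1 + (x + d)) ∧
        bb c (n + 1 + (x + d)) ≤ c / L := by
      intro d hd
      have h4 : d ≤ D.sup id := Finset.le_sup (f := id) hd
      have h5 : (x : ℝ) ≤ ((n + 1 + (x + d) : ℕ) : ℝ) := by
        exact_mod_cast (by omega : x ≤ n + 1 + (x + d))
      have h6 : ((n + 1 + (x + d) : ℕ) : ℝ) ≤ 3 * x := by
        exact_mod_cast (by omega : n + 1 + (x + d) ≤ 3 * x)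
      have h7 : L ≤ Real.log ((n + 1 + (x + d) : ℕ) : ℝ) := Real.log_le_log (by linarith) h5
      have h8 : Real.log ((n + 1 + (x + d) : ℕ) : ℝ) ≤ L + Real.log 3 := by
        have h9 : L + Real.log 3 = Real.log (3 * (x : ℝ)) := by
          rw [Real.log_mul (by norm_num) (by linarith)]
          ring
        rw [h9]
        exact Real.log_le_log (by linarith) h6
      have h9 : bb c (n + 1 + (x + d)) = c / Real.log ((n + 1 + (x + d) : ℕ) : ℝ) := by
        unfold bb
        refine min_eq_right ?_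
        rw [div_le_one (by linarith)]
        linarith
      rw [h9]
      exact ⟨div_le_div_of_nonneg_left hcpos.le (by linarith) h8,
        div_le_div_of_nonneg_left hcpos.le hL0 h7⟩
    constructor
    · rw [hk, ← Finset.prod_const]
      exact Finset.prod_le_prod (fun _ _ => by positivity) fun d hd => (h1 d hd).1
    · rw [hk, ← Finset.prod_const]
      refine Finset.prod_le_prod (fun d hd => ?_) fun d hd => (h1 d hd).2
      exact le_trans (by positivity) (h1 d hd).1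
  set N : ℝ := ∑ n ∈ Finset.range y, a (n + (x + 1)) with hN
  have ha0 : ∀ n, 0 ≤ a n := by
    intro n
    simp only [ha]
    split_ifs <;> norm_num
  have ha1 : ∀ n, a n ≤ 1 := by
    intro n
    simp only [ha]
    split_ifs <;> norm_num
  have e3 : N * (c / (L + Real.log 3)) ^ k ≤ E W D x y := by
    rw [e1, hN, Finset.sum_mul]
    exact Finset.sum_le_sum fun n hn => mul_le_mul_of_nonneg_left (e2 n hn).1 (ha0 _)
  have e4 : E W D x y ≤ N * (c / L) ^ k := by
    rw [e1, hN, Finset.sum_mul]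
    exact Finset.sum_le_sum fun n hn => mul_le_mul_of_nonneg_left (e2 n hn).2 (ha0 _)
  have hN0 : 0 ≤ N := Finset.sum_nonneg fun _ _ => ha0 _
  have hN1 : N ≤ y := by
    calc N ≤ ∑ n ∈ Finset.range y, (1 : ℝ) := Finset.sum_le_sum fun _ _ => ha1 _
      _ = y := by simp
  have e5 : N = (Nat.count (good (PH D) W) (x + 1 + y) : ℝ) - Nat.count (good (PH D) W) (x + 1) := by
    have h1 : ∀ z : ℕ, (Nat.count (good (PH D) W) z : ℝ) = ∑ n ∈ Finset.range z, a n := by
      intro z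
      simp only [ha]
      rw [Finset.sum_boole, Nat.count_eq_card_filter_range]
    rw [h1, h1, Finset.sum_range_add, add_sub_cancel_left, hN]
    exact Finset.sum_congr rfl fun n _ => by rw [add_comm]
  have e6 := abs_le.1 (count_periodic (good (PH D) W) W hW (good_periodic (PH D) W) (x + 1))
  have e7 := abs_le.1 (count_periodic (good (PH D) W) W hW (good_periodic (PH D) W) (x + 1 + y))
  set d := (Nat.count (good (PH D) W) W : ℝ) / W with hd
  have e8 : singH Q D = d * c ^ k := by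
    rw [hd, hc, hk]
    exact (singH_eq Q hQ D).symm
  push_cast at e6 e7
  have e9 : |N - y * d| ≤ 2 * W := by
    rw [abs_le]
    constructor
    · linarith [e6.1, e6.2, e7.1, e7.2]
    · linarith [e6.1, e6.2, e7.1, e7.2]
  have e10 := abs_le.1 e9
  have f1 : E W D x y * L ^ k / y ≤ c ^ k * (N / y) := by
    rw [div_le_iff₀ hy']
    calc E W D x y * L ^ k ≤ N * (c / L) ^ k * L ^ k := mul_le_mul_of_nonneg_right e4 (by positivity)
      _ = c ^ k * (N / y) * y := by
        rw [div_pow c L k]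
        field_simp
  have f2 : c ^ k * (N / y) * (L / (L + Real.log 3)) ^ k ≤ E W D x y * L ^ k / y := by
    rw [le_div_iff₀ hy']
    calc c ^ k * (N / y) * (L / (L + Real.log 3)) ^ k * y
        = N * (c / (L + Real.log 3)) ^ k * L ^ k := by
          rw [div_pow c (L + Real.log 3) k, div_pow L (L + Real.log 3) k]
          field_simp
      _ ≤ E W D x y * L ^ k := mul_le_mul_of_nonneg_right e3 (by positivity)
  have f3 : N / y ≤ 1 := (div_le_one hy').2 hN1
  have f4 : |N / y - d| ≤ 2 * W / y := by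
    have h1 : N / y - d = (N - y * d) / y := by
      field_simp
    rw [h1, abs_div, abs_of_pos hy']
    exact div_le_div_of_nonneg_right e9 hy'.le
  have f5 := abs_le.1 f4
  have f6 : c ^ k * (N / y) - c ^ k * (N / y) * (L / (L + Real.log 3)) ^ k ≤
      c ^ k * (1 - (L / (L + Real.log 3)) ^ k) := by
    have h1 : (L / (L + Real.log 3)) ^ k ≤ 1 := by
      refine pow_le_one₀ (by positivity) ?_
      rw [div_le_one (by positivity)]
      linarith
    have h2 : c ^ k * (N / y) * (1 - (L / (L + Real.log 3)) ^ k) ≤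
        c ^ k * 1 * (1 - (L / (L + Real.log 3)) ^ k) := by
      refine mul_le_mul_of_nonneg_right ?_ (by linarith)
      exact mul_le_mul_of_nonneg_left f3 hck.le
    linarith
  have f7 : |c ^ k * (N / y) - d * c ^ k| ≤ c ^ k * (2 * W / y) := by
    have h1 : c ^ k * (N / y) - d * c ^ k = c ^ k * (N / y - d) := by ring
    rw [h1, abs_mul, abs_of_pos hck]
    exact mul_le_mul_of_nonneg_left f4 hck.le
  have f8 := abs_le.1 f7
  rw [e8, abs_le]
  constructor
  · linarith [f8.1, f8.2]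
  · linarith [f8.1, f8.2]

/-- the patterns as a finite set -/
noncomputable def P (S : Set ℕ) (D : Finset ℕ) (x y : ℕ) : Finset ℕ := by
  classical
  exact (Finset.Ioc x (x + y)).filter (fun p => ∀ i ≤ D.sup id, (p + i ∈ S ↔ i ∈ D))

lemma pattern_eq (S : Set ℕ) (D : Finset ℕ) (x y : ℕ) : pattern S D x y = (P S D x y).card := by
  classical
  unfold pattern P
  rw [← ncard_coe_finset]
  congr 1
  ext p
  simp only [mem_ofPred_eq, Finset.coe_filter, Finset.mem_Ioc]
  tauto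

lemma pat_le (A : ℕ → Set Ω) (ω : Ω) (D : Finset ℕ) (x y : ℕ) :
    (P {n | ω ∈ A n} D x y).card ≤ (T A ω D x y).card := by
  classical
  apply Finset.card_le_card
  intro p hp
  unfold P at hp
  unfold T
  simp only [Finset.mem_filter, Finset.mem_Ioc, mem_ofPred_eq] at hp ⊢
  exact ⟨hp.1, fun d hd => (hp.2 d (Finset.le_sup (f := id) hd)).2 hd⟩

lemma pat_ge (A : ℕ → Set Ω) (ω : Ω) (D : Finset ℕ) (x y : ℕ) :
    (T A ω D x y).card ≤ (P {n | ω ∈ A n} D x y).card +
      ∑ v ∈ Finset.range (D.sup id + 1) \ D, (T A ω (insert v D) x y).card := by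
  classical
  have h1 : T A ω D x y ⊆ P {n | ω ∈ A n} D x y ∪
      (Finset.range (D.sup id + 1) \ D).biUnion (fun v => T A ω (insert v D) x y) := by
    intro p hp
    unfold T at hp
    simp only [Finset.mem_filter, Finset.mem_Ioc] at hp
    rw [Finset.mem_union]
    by_cases h : ∀ i ≤ D.sup id, ω ∈ A (p + i) → i ∈ D
    · left
      unfold P
      simp only [Finset.mem_filter, Finset.mem_Ioc, mem_ofPred_eq]
      exact ⟨hp.1, fun i hi => ⟨h i hi, fun hd => hp.2 i hd⟩⟩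
    · right
      push Not at h
      obtain ⟨i, hi, h2, h3⟩ := h
      rw [Finset.mem_biUnion]
      refine ⟨i, Finset.mem_sdiff.2 ⟨Finset.mem_range.2 (by omega), h3⟩, ?_⟩
      unfold T
      simp only [Finset.mem_filter, Finset.mem_Ioc]
      refine ⟨hp.1, fun d hd => ?_⟩
      rcases Finset.mem_insert.1 hd with rfl | hd
      · exact h2
      · exact hp.2 d hd
  refine (Finset.card_le_card h1).trans ((Finset.card_union_le _ _).trans ?_)
  exact Nat.add_le_add_left Finset.card_biUnion_le _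

lemma singH_nonneg {Q : Finset ℕ} (hQ : ∀ p ∈ Q, p.Prime) (D : Finset ℕ) : 0 ≤ singH Q D := by
  unfold singH
  refine Finset.prod_nonneg fun p hp => ?_
  have h1 := occ_le D (hQ p hp).pos
  have h2 : (0 : ℝ) < p := by exact_mod_cast (hQ p hp).pos
  have h3 : (occ D p : ℝ) ≤ p := by exact_mod_cast h1
  have h4 : (1 : ℝ) ≤ p := by exact_mod_cast (hQ p hp).one_lt.le
  have h5 : (occ D p : ℝ) / p ≤ 1 := (div_le_one h2).2 h3
  have h6 : 1 / (p : ℝ) ≤ 1 := (div_le_one h2).2 h4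
  exact div_nonneg (by linarith) (pow_nonneg (by linarith) _)

/-- the law for the patterns -/
lemma pat_law {A : ℕ → Set Ω} {ω : Ω} {Q : Finset ℕ} (hQ : ∀ p ∈ Q, p.Prime)
    (hω : ∀ (C : ℕ) (D : Finset ℕ) (ε : ℝ), 0 < ε → ∀ᶠ y : ℕ in atTop, ∀ x ≤ y ^ C,
      |((T A ω D x y).card : ℝ) - E (∏ p ∈ Q, p) D x y| ≤ ε * E (∏ p ∈ Q, p) D x y)
    (C : ℕ) (D : Finset ℕ) {ε : ℝ} (hε : 0 < ε) :
    ∀ᶠ y : ℕ in atTop, ∀ x : ℕ, y ≤ x → x ≤ y ^ C →
      |(pattern {n | ω ∈ A n} D x y : ℝ) * Real.log x ^ D.card / y - singH Q D| ≤ ε := by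
  classical
  set W := ∏ p ∈ Q, p with hWdef
  set k := D.card with hk
  set s := singH Q D with hs
  have hs0 : 0 ≤ s := singH_nonneg hQ D
  set V := Finset.range (D.sup id + 1) \ D with hV
  obtain ⟨η, hη0, hη1, hηε⟩ : ∃ η : ℝ, 0 < η ∧ η ≤ 1 ∧ η * (s + 3) ≤ ε := by
    have h3 : 0 < s + 3 := by linarith
    refine ⟨min 1 (ε / (s + 3)), lt_min one_pos (div_pos hε h3), min_le_left _ _, ?_⟩
    have h1 : min 1 (ε / (s + 3)) ≤ ε / (s + 3) := min_le_right _ _
    rwa [le_div_iff₀ h3] at h1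
  obtain ⟨B, hB⟩ : ∃ B : ℝ, B = ∑ v ∈ V, 2 * (singH Q (insert v D) + 1) := ⟨_, rfl⟩
  have hlog : Tendsto (fun x : ℕ => Real.log (x : ℝ)) atTop atTop :=
    Real.tendsto_log_atTop.comp tendsto_natCast_atTop_atTop
  have h1 : ∀ᶠ y : ℕ in atTop, ∀ v ∈ V, (∀ x ≤ y ^ C,
      |((T A ω (insert v D) x y).card : ℝ) - E W (insert v D) x y| ≤ 1 * E W (insert v D) x y) ∧
      ∀ x ≥ y, |E W (insert v D) x y * Real.log x ^ (insert v D).card / y - singH Q (insert v D)| ≤ 1 := by
    rw [Filter.eventually_all_finset]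
    intro v _
    exact (hω C (insert v D) 1 one_pos).and (E_asymp Q hQ (insert v D) one_pos)
  filter_upwards [hω C D η hη0, E_asymp Q hQ D hη0, h1, hlog.eventually_ge_atTop (B / η + 1),
    eventually_ge_atTop 3] with y g1 g2 g3 g4 g5 x hyx hxy
  have hy' : (3 : ℝ) ≤ y := by exact_mod_cast g5
  have hx' : (y : ℝ) ≤ x := by exact_mod_cast hyx
  have hB0 : 0 ≤ B := by
    rw [hB]
    refine Finset.sum_nonneg fun v _ => ?_
    have := singH_nonneg hQ (insert v D)
    linarith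
  set L := Real.log (x : ℝ) with hL
  have hL1 : Real.log (y : ℝ) ≤ L := Real.log_le_log (by linarith) hx'
  have hBη : 0 ≤ B / η := div_nonneg hB0 hη0.le
  have hL0 : 0 < L := by linarith
  have hBL : B / L ≤ η := by
    rw [div_le_iff₀ hL0]
    have h2 : B / η ≤ L := by linarith
    rw [div_le_iff₀ hη0] at h2
    linarith
  have a1 := abs_le.1 (g1 x hxy)
  have a2 := abs_le.1 (g2 x hyx)
  have hy0 : (0 : ℝ) < y := by linarith
  have hr : 0 ≤ L ^ k / y := by positivity
  set Tn : ℝ := ((T A ω D x y).card : ℝ) with hTn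
  set En := E W D x y with hEn
  have a3 : |Tn * L ^ k / y - s| ≤ η * (s + 1) + η := by
    have b1 : En * (L ^ k / y) ≤ s + 1 := by
      have := a2.2
      rw [mul_div_assoc] at this
      linarith
    have b2 : |Tn - En| * (L ^ k / y) ≤ η * (s + 1) := by
      calc |Tn - En| * (L ^ k / y) ≤ η * En * (L ^ k / y) :=
            mul_le_mul_of_nonneg_right (g1 x hxy) hr
        _ = η * (En * (L ^ k / y)) := by ring
        _ ≤ _ := mul_le_mul_of_nonneg_left b1 hη0.le
    have b3 : Tn * L ^ k / y - s = (Tn - En) * (L ^ k / y) + (En * L ^ k / y - s) := by ring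
    rw [b3]
    refine (abs_add_le _ _).trans ?_
    rw [abs_mul, abs_of_nonneg hr]
    exact add_le_add b2 (abs_le.2 a2)
  have a4 : (∑ v ∈ V, ((T A ω (insert v D) x y).card : ℝ)) * (L ^ k / y) ≤ η := by
    refine le_trans ?_ hBL
    rw [Finset.sum_mul, hB, Finset.sum_div]
    refine Finset.sum_le_sum fun v hv => ?_
    have hvD : v ∉ D := (Finset.mem_sdiff.1 hv).2
    have c1 := (abs_le.1 ((g3 v hv).1 x hxy)).2
    have c2 := (abs_le.1 ((g3 v hv).2 x hyx)).2
    rw [Finset.card_insert_of_notMem hvD, ← hL, ← hk] at c2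
    rw [le_div_iff₀ hL0]
    have c3 : ((T A ω (insert v D) x y).card : ℝ) ≤ 2 * E W (insert v D) x y := by linarith
    have c4 : E W (insert v D) x y * (L ^ (k + 1) / y) ≤ singH Q (insert v D) + 1 := by
      rw [mul_div_assoc] at c2
      linarith
    calc ((T A ω (insert v D) x y).card : ℝ) * (L ^ k / y) * L
        = ((T A ω (insert v D) x y).card : ℝ) * (L ^ (k + 1) / y) := by
          rw [pow_succ]
          ring
      _ ≤ 2 * E W (insert v D) x y * (L ^ (k + 1) / y) :=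
          mul_le_mul_of_nonneg_right c3 (by positivity)
      _ = 2 * (E W (insert v D) x y * (L ^ (k + 1) / y)) := by ring
      _ ≤ _ := by linarith
  have p1 : ((P {n | ω ∈ A n} D x y).card : ℝ) ≤ Tn := by
    rw [hTn]
    exact_mod_cast pat_le A ω D x y
  have p2 : Tn ≤ (P {n | ω ∈ A n} D x y).card + ∑ v ∈ V, ((T A ω (insert v D) x y).card : ℝ) := by
    rw [hTn, hV]
    exact_mod_cast pat_ge A ω D x y
  rw [pattern_eq]
  set Pn : ℝ := ((P {n | ω ∈ A n} D x y).card : ℝ) with hPn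
  set Vn : ℝ := ∑ v ∈ V, ((T A ω (insert v D) x y).card : ℝ) with hVn
  have q1 : Pn * (L ^ k / y) ≤ Tn * (L ^ k / y) := mul_le_mul_of_nonneg_right p1 hr
  have q2 : Tn * (L ^ k / y) ≤ (Pn + Vn) * (L ^ k / y) := mul_le_mul_of_nonneg_right p2 hr
  have q3 := abs_le.1 a3
  rw [mul_div_assoc] at q3 ⊢
  rw [abs_le]
  rw [add_mul] at q2
  have q4 : η * (s + 1) + η + η ≤ ε := by linarith
  constructor
  · linarith [q3.1, q3.2]
  · linarith [q3.1, q3.2]

/-- the interval between consecutive powers -/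
lemma between_eq (S : Set ℕ) (D : Finset ℕ) (s n : ℕ) (h : n ^ s + 1 + D.sup id ≤ (n + 1) ^ s) :
    between S D s n = pattern S D (n ^ s) ((n + 1) ^ s - n ^ s - 1 - D.sup id) := by
  unfold between pattern
  congr 1
  ext p
  simp only [mem_ofPred_eq]
  constructor
  · rintro ⟨h1, h2, h3⟩
    exact ⟨h1, by omega, h3⟩
  · rintro ⟨h1, h2, h3⟩
    exact ⟨h1, by omega, h3⟩

/-- differences of consecutive powers -/
lemma diff_bounds (s n : ℕ) : (s : ℝ) * (n : ℝ) ^ (s - 1) ≤ ((n : ℝ) + 1) ^ s - (n : ℝ) ^ s ∧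
    ((n : ℝ) + 1) ^ s - (n : ℝ) ^ s ≤ s * ((n : ℝ) + 1) ^ (s - 1) := by
  have h1 := geom_sum₂_mul ((n : ℝ) + 1) (n : ℝ) s
  rw [add_sub_cancel_left, mul_one] at h1
  rw [← h1]
  have hn : (0 : ℝ) ≤ n := Nat.cast_nonneg n
  constructor
  · calc (s : ℝ) * (n : ℝ) ^ (s - 1) = ∑ i ∈ Finset.range s, (n : ℝ) ^ (s - 1) := by simp
      _ ≤ _ := Finset.sum_le_sum fun i hi => by
          have h2 := Finset.mem_range.1 hi
          calc (n : ℝ) ^ (s - 1) = (n : ℝ) ^ i * (n : ℝ) ^ (s - 1 - i) := by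
                rw [← pow_add]
                congr 1
                omega
            _ ≤ _ := mul_le_mul_of_nonneg_right (pow_le_pow_left₀ hn (by linarith) _) (by positivity)
  · calc _ ≤ ∑ i ∈ Finset.range s, ((n : ℝ) + 1) ^ (s - 1) := Finset.sum_le_sum fun i hi => by
          have h2 := Finset.mem_range.1 hi
          calc ((n : ℝ) + 1) ^ i * (n : ℝ) ^ (s - 1 - i) ≤
                ((n : ℝ) + 1) ^ i * ((n : ℝ) + 1) ^ (s - 1 - i) :=
                mul_le_mul_of_nonneg_left (pow_le_pow_left₀ hn (by linarith) _) (by positivity)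
            _ = ((n : ℝ) + 1) ^ (s - 1) := by
                rw [← pow_add]
                congr 1
                omega
      _ = s * ((n : ℝ) + 1) ^ (s - 1) := by simp

lemma len_lim (s M : ℕ) (hs : 2 ≤ s) :
    (∀ᶠ n : ℕ in atTop, n ^ s + 1 + M ≤ (n + 1) ^ s) ∧
    Tendsto (fun n : ℕ => (((n + 1) ^ s - n ^ s - 1 - M : ℕ) : ℝ) / (n : ℝ) ^ (s - 1)) atTop
      (𝓝 (s : ℝ)) := by
  have h0 : ∀ᶠ n : ℕ in atTop, n ^ s + 1 + M ≤ (n + 1) ^ s := by
    filter_upwards [eventually_ge_atTop (M + 1)] with n hn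
    have h1 := (diff_bounds s n).1
    have hn' : ((M : ℝ) + 1) ≤ n := by exact_mod_cast hn
    have h2 : (n : ℝ) ≤ (n : ℝ) ^ (s - 1) := le_self_pow₀ (by linarith [Nat.cast_nonneg (α := ℝ) M]) (by omega)
    have h3 : (1 : ℝ) ≤ s := by exact_mod_cast (by omega : 1 ≤ s)
    have h4 : (n : ℝ) ^ (s - 1) ≤ (s : ℝ) * (n : ℝ) ^ (s - 1) := le_mul_of_one_le_left (by positivity) h3
    have h5 : (n : ℝ) ^ s + 1 + M ≤ ((n : ℝ) + 1) ^ s := by linarith
    exact_mod_cast h5
  refine ⟨h0, ?_⟩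
  have t0 : Tendsto (fun n : ℕ => (1 + M : ℝ) / (n : ℝ) ^ (s - 1)) atTop (𝓝 0) :=
    tendsto_const_nhds.div_atTop ((tendsto_pow_atTop (by omega)).comp tendsto_natCast_atTop_atTop)
  have t1 : Tendsto (fun n : ℕ => (s : ℝ) - (1 + M : ℝ) / (n : ℝ) ^ (s - 1)) atTop (𝓝 (s : ℝ)) := by
    have := (tendsto_const_nhds (x := (s : ℝ))).sub t0
    rwa [sub_zero] at this
  have t2 : Tendsto (fun n : ℕ => (s : ℝ) * (1 + 1 / (n : ℝ)) ^ (s - 1)) atTop (𝓝 (s : ℝ)) := by
    have g1 : Tendsto (fun n : ℕ => (1 : ℝ) + 1 / (n : ℝ)) atTop (𝓝 (1 + 0)) :=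
      tendsto_const_nhds.add tendsto_one_div_atTop_nhds_zero_nat
    have g2 := ((g1.pow (s - 1)).const_mul (s : ℝ))
    rw [add_zero, one_pow, mul_one] at g2
    exact g2
  refine tendsto_of_tendsto_of_tendsto_of_le_of_le' t1 t2 ?_ ?_
  · filter_upwards [h0, eventually_ge_atTop 1] with n hn hn1
    have hn' : (0 : ℝ) < n := by exact_mod_cast hn1
    have hp : (0 : ℝ) < (n : ℝ) ^ (s - 1) := pow_pos hn' _
    have e1 : (((n + 1) ^ s - n ^ s - 1 - M : ℕ) : ℝ) = ((n : ℝ) + 1) ^ s - (n : ℝ) ^ s - 1 - M := by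
      have : ((n + 1) ^ s - n ^ s - 1 - M) + (n ^ s + 1 + M) = (n + 1) ^ s := by omega
      have h2 : (((n + 1) ^ s - n ^ s - 1 - M : ℕ) : ℝ) + ((n : ℝ) ^ s + 1 + M) = ((n : ℝ) + 1) ^ s := by
        exact_mod_cast this
      linarith
    rw [e1, le_div_iff₀ hp, sub_mul, div_mul_cancel₀ _ hp.ne']
    linarith [(diff_bounds s n).1]
  · filter_upwards [h0, eventually_ge_atTop 1] with n hn hn1
    have hn' : (0 : ℝ) < n := by exact_mod_cast hn1
    have hp : (0 : ℝ) < (n : ℝ) ^ (s - 1) := pow_pos hn' _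
    have e1 : (((n + 1) ^ s - n ^ s - 1 - M : ℕ) : ℝ) = ((n : ℝ) + 1) ^ s - (n : ℝ) ^ s - 1 - M := by
      have : ((n + 1) ^ s - n ^ s - 1 - M) + (n ^ s + 1 + M) = (n + 1) ^ s := by omega
      have h2 : (((n + 1) ^ s - n ^ s - 1 - M : ℕ) : ℝ) + ((n : ℝ) ^ s + 1 + M) = ((n : ℝ) + 1) ^ s := by
        exact_mod_cast this
      linarith
    rw [e1, div_le_iff₀ hp, mul_assoc, ← mul_pow, add_mul, one_mul, one_div, inv_mul_cancel₀ hn'.ne']
    have hM : (0 : ℝ) ≤ M := Nat.cast_nonneg M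
    linarith [(diff_bounds s n).2]

/-- the law between consecutive powers -/
lemma between_law {S : Set ℕ} {Q D : Finset ℕ}
    (h : ∀ ε : ℝ, 0 < ε → ∀ᶠ y : ℕ in atTop, ∀ x : ℕ, y ≤ x → x ≤ y ^ 3 →
      |(pattern S D x y : ℝ) * Real.log x ^ D.card / y - singH Q D| ≤ ε) (s : ℕ) (hs : 2 ≤ s) :
    Tendsto (fun n : ℕ => (between S D s n : ℝ) * Real.log n ^ D.card / (n : ℝ) ^ (s - 1)) atTop
      (𝓝 ((s : ℝ) / (s : ℝ) ^ D.card * singH Q D)) := by
  obtain ⟨h0, h1⟩ := len_lim s (D.sup id) hs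
  set Y : ℕ → ℕ := fun n => (n + 1) ^ s - n ^ s - 1 - D.sup id with hY
  have hs' : (2 : ℝ) ≤ s := by exact_mod_cast hs
  have h2 : ∀ᶠ n : ℕ in atTop, n ^ (s - 1) ≤ Y n := by
    filter_upwards [h1.eventually (lt_mem_nhds (show (1 : ℝ) < s by linarith)),
      eventually_ge_atTop 1] with n hn hn1
    have hn' : (0 : ℝ) < n := by exact_mod_cast hn1
    rw [lt_div_iff₀ (pow_pos hn' _), one_mul] at hn
    exact_mod_cast hn.le
  have h3 : ∀ᶠ n : ℕ in atTop, Y n ≤ n ^ s := by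
    filter_upwards [h1.eventually (gt_mem_nhds (show (s : ℝ) < s + 1 by linarith)),
      eventually_ge_atTop (s + 1)] with n hn hn1
    have hn' : (0 : ℝ) < n := by exact_mod_cast (by omega : 0 < n)
    rw [div_lt_iff₀ (pow_pos hn' _)] at hn
    have h4 : (Y n : ℝ) ≤ (n : ℝ) ^ s := by
      refine hn.le.trans ?_
      have h5 : (n : ℝ) ^ s = n * (n : ℝ) ^ (s - 1) := by
        rw [← pow_succ']
        congr 1
        omega
      rw [h5]
      refine mul_le_mul_of_nonneg_right ?_ (by positivity)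
      exact_mod_cast hn1
    exact_mod_cast h4
  have h4 : Tendsto Y atTop atTop := by
    refine tendsto_atTop_mono' atTop ?_ tendsto_id
    filter_upwards [h2, eventually_ge_atTop 1] with n hn hn1
    exact le_trans (Nat.le_self_pow (by omega) n) hn
  have h5 : Tendsto (fun n : ℕ => (pattern S D (n ^ s) (Y n) : ℝ) *
      Real.log ((n ^ s : ℕ) : ℝ) ^ D.card / (Y n : ℝ)) atTop (𝓝 (singH Q D)) := by
    rw [Metric.tendsto_nhds]
    intro ε hε
    filter_upwards [h4.eventually (h (ε / 2) (by positivity)), h2, h3, eventually_ge_atTop 1] with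
      n hn hn2 hn3 hn4
    rw [Real.dist_eq]
    refine lt_of_le_of_lt (hn (n ^ s) hn3 ?_) (by linarith)
    calc n ^ s ≤ n ^ ((s - 1) * 3) := Nat.pow_le_pow_right hn4 (by omega)
      _ = (n ^ (s - 1)) ^ 3 := pow_mul n (s - 1) 3
      _ ≤ Y n ^ 3 := Nat.pow_le_pow_left hn2 3
  have h6 := (h5.mul h1).mul_const ((s : ℝ) ^ D.card)⁻¹
  have h7 : singH Q D * (s : ℝ) * ((s : ℝ) ^ D.card)⁻¹ = (s : ℝ) / (s : ℝ) ^ D.card * singH Q D := by
    ring
  rw [h7] at h6
  refine h6.congr' ?_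
  filter_upwards [h0, h2, eventually_ge_atTop 1] with n hn hn2 hn1
  have hn' : (0 : ℝ) < n := by exact_mod_cast hn1
  have hYn : (0 : ℝ) < Y n := by
    have : 0 < Y n := lt_of_lt_of_le (pow_pos (by omega) _) hn2
    exact_mod_cast this
  rw [between_eq S D s n hn]
  push_cast
  rw [Real.log_pow, mul_pow]
  have hsp : (0 : ℝ) < (s : ℝ) ^ D.card := by positivity
  have e1 : ((((n + 1) ^ s - n ^ s - 1 - D.sup id : ℕ)) : ℝ) = (Y n : ℝ) := rfl
  rw [e1]
  have e2 : pattern S D (n ^ s) ((n + 1) ^ s - n ^ s - 1 - D.sup id) = pattern S D (n ^ s) (Y n) := rfl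
  rw [e2]
  field_simp

lemma sexy_eq (S : Set ℕ) (n : ℕ) : sexy S n = between S {0, 6} 3 n := by
  have h0 : (({0, 6} : Finset ℕ)).sup id = 6 := by decide
  unfold sexy between
  congr 1
  ext p
  simp only [mem_ofPred_eq, h0]
  constructor
  · rintro ⟨h1, h2, h3, h4, h5⟩
    refine ⟨h4, h5, fun i hi => ?_⟩
    rcases Nat.eq_zero_or_pos i with h6 | h6
    · subst h6
      simpa using h1
    · rcases Nat.lt_or_ge i 6 with h7 | h7
      · have h8 := h3 (p + i) (by omega) (by omega)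
        constructor
        · intro h9
          exact absurd h9 h8
        · intro h9
          simp only [Finset.mem_insert, Finset.mem_singleton] at h9
          omega
      · have h8 : i = 6 := by omega
        subst h8
        simpa using h2
  · rintro ⟨h4, h5, h6⟩
    refine ⟨by simpa using (h6 0 (by omega)), by simpa using (h6 6 le_rfl), fun q h7 h8 hq => ?_, h4, h5⟩
    have h9 := (h6 (q - p) (by omega)).1 (by rwa [show p + (q - p) = q by omega])
    simp only [Finset.mem_insert, Finset.mem_singleton] at h9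
    omega

lemma sing_sexy {Q : Finset ℕ} (hQ : ∀ p ∈ Q, p.Prime) : 0 < singH Q {0, 6} := by
  refine lt_of_le_of_ne (singH_nonneg hQ _) (fun h => ?_)
  obtain ⟨p, hp, ho⟩ := singH_zero hQ h.symm
  have h1 : occ {0, 6} p ≤ 2 := by
    unfold occ
    exact Finset.card_image_le.trans (by decide)
  have h2 := (hQ p hp).two_le
  have h3 : p = 2 := by omega
  subst h3
  revert ho
  unfold occ
  decide

end Pool.Agent.Results.MP_5628fe_nt.SievedModels

open Pool.Agent.Results.MP_5628fe_nt.SievedModels Pool.Agent.R528.RM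

/-- In every sieved sequential random model of the primes, almost surely: (1) for every finite set `D`
of integers, every `C` and `ε > 0`, for all large `y` and ALL `x` with `y ≤ x ≤ y ^ C` the number of
`x < p ≤ x + y` for which the chosen integers in `[p, p + max D]` are exactly the `p + d`, `d ∈ D`,
times `(log x) ^ |D| / y`, differs by at most `ε` from `𝔖_Q(D)`; (2) for every `s ≥ 2` the number of
these `p` with `n ^ s < p` and `p + max D < (n + 1) ^ s`, times `(log n) ^ |D| / n ^ (s - 1)`, tends to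
`s ^ (1 - |D|) 𝔖_Q(D)`; (3) the number `S(n)` of the pairs of consecutive chosen integers with
difference `6` between `n ^ 3` and `(n + 1) ^ 3` satisfies `S(n) (log n) ^ 2 / n ^ 2 → 𝔖_Q({0, 6}) / 3 > 0`;
(4) in particular for every `k`, `S(n) ≥ k` for all large `n`. -/
theorem Pool.Agent.Results.MP_5628fe_nt.SievedModels.result
    {Ω : Type} [m : MeasurableSpace Ω] (μ : Measure Ω) [IsProbabilityMeasure μ]
    (ℱ : Filtration ℕ m) (A : ℕ → Set Ω) (Q : Finset ℕ) (hQ : ∀ p ∈ Q, p.Prime)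
    (hS : SievedModel μ ℱ A Q) : ∀ᵐ ω ∂μ,
    (∀ (C : ℕ) (D : Finset ℕ) (ε : ℝ), 0 < ε → ∀ᶠ y : ℕ in atTop, ∀ x : ℕ, y ≤ x → x ≤ y ^ C →
      |(pattern {n | ω ∈ A n} D x y : ℝ) * Real.log x ^ D.card / y - sing Q D| ≤ ε) ∧
    (∀ (D : Finset ℕ) (s : ℕ), 2 ≤ s →
      Tendsto (fun n : ℕ => (between {n | ω ∈ A n} D s n : ℝ) * Real.log n ^ D.card / (n : ℝ) ^ (s - 1))
        atTop (𝓝 ((s : ℝ) / (s : ℝ) ^ D.card * sing Q D))) ∧
    (Tendsto (fun n : ℕ => (sexy {n | ω ∈ A n} n : ℝ) * Real.log n ^ 2 / (n : ℝ) ^ 2) atTop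
        (𝓝 (sing Q {0, 6} / 3)) ∧ 0 < sing Q {0, 6}) ∧
    ∀ k : ℕ, ∃ M : ℕ, ∀ n ≥ M, k ≤ sexy {n | ω ∈ A n} n := by
  classical
  obtain ⟨hA, hcop, hd⟩ := hS
  have he : ∀ D, sing Q D = singH Q D := fun D => rfl
  filter_upwards [law (μ := μ) hA Q hQ hcop hd] with ω hω
  have h1 : ∀ (C : ℕ) (D : Finset ℕ) (ε : ℝ), 0 < ε → ∀ᶠ y : ℕ in atTop, ∀ x : ℕ, y ≤ x → x ≤ y ^ C →
      |(pattern {n | ω ∈ A n} D x y : ℝ) * Real.log x ^ D.card / y - singH Q D| ≤ ε :=
    fun C D ε hε => pat_law hQ hω C D hε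
  have h2 : ∀ (D : Finset ℕ) (s : ℕ), 2 ≤ s →
      Tendsto (fun n : ℕ => (between {n | ω ∈ A n} D s n : ℝ) * Real.log n ^ D.card / (n : ℝ) ^ (s - 1))
        atTop (𝓝 ((s : ℝ) / (s : ℝ) ^ D.card * singH Q D)) :=
    fun D s hs => between_law (fun ε hε => h1 3 D ε hε) s hs
  have h3 : Tendsto (fun n : ℕ => (sexy {n | ω ∈ A n} n : ℝ) * Real.log n ^ 2 / (n : ℝ) ^ 2) atTop
        (𝓝 (singH Q {0, 6} / 3)) := by
    have h4 := h2 {0, 6} 3 (by norm_num)
    have h5 : (({0, 6} : Finset ℕ)).card = 2 := by decide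
    rw [h5] at h4
    have h6 : ((3 : ℕ) : ℝ) / ((3 : ℕ) : ℝ) ^ 2 * singH Q {0, 6} = singH Q {0, 6} / 3 := by
      push_cast
      ring
    rw [h6] at h4
    refine h4.congr fun n => ?_
    rw [sexy_eq]
  have h4 := sing_sexy hQ
  refine ⟨h1, h2, ⟨h3, h4⟩, fun k => ?_⟩
  have h5 : Tendsto (fun n : ℕ => (n : ℝ) ^ 2 / Real.log n ^ 2) atTop atTop := by
    refine tendsto_atTop_mono' atTop ?_
      ((tendsto_natCast_atTop_atTop (R := ℝ)).atTop_div_const (show (0 : ℝ) < 16 by norm_num))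
    filter_upwards [eventually_ge_atTop 3] with n hn
    have hn' : (3 : ℝ) ≤ n := by exact_mod_cast hn
    have hL : 0 < Real.log (n : ℝ) := Real.log_pos (by linarith)
    have h6 : Real.log (n : ℝ) ≤ (n : ℝ) ^ (1 / 2 : ℝ) / (1 / 2) :=
      Real.log_le_rpow_div (by linarith) (by norm_num)
    have h7 : ((n : ℝ) ^ (1 / 2 : ℝ)) ^ 2 = n := by
      rw [← Real.rpow_natCast, ← Real.rpow_mul (by linarith)]
      norm_num
    have h8 : Real.log (n : ℝ) ^ 2 ≤ 4 * n := by
      calc Real.log (n : ℝ) ^ 2 ≤ ((n : ℝ) ^ (1 / 2 : ℝ) / (1 / 2)) ^ 2 := pow_le_pow_left₀ hL.le h6 2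
        _ = 4 * ((n : ℝ) ^ (1 / 2 : ℝ)) ^ 2 := by ring
        _ = 4 * n := by rw [h7]
    rw [le_div_iff₀ (by positivity)]
    nlinarith
  have h6 := h3.pos_mul_atTop (by positivity) h5
  have h7 : ∀ᶠ n : ℕ in atTop, (k : ℝ) ≤ sexy {n | ω ∈ A n} n := by
    filter_upwards [h6.eventually_ge_atTop (k : ℝ), eventually_ge_atTop 3] with n hn hn3
    have hn' : (3 : ℝ) ≤ n := by exact_mod_cast hn3
    have hL : 0 < Real.log (n : ℝ) := Real.log_pos (by linarith)
    have h8 : (sexy {n | ω ∈ A n} n : ℝ) * Real.log n ^ 2 / (n : ℝ) ^ 2 * ((n : ℝ) ^ 2 / Real.log n ^ 2) =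
        sexy {n | ω ∈ A n} n := by
      field_simp
    rw [h8] at hn
    exact hn
  obtain ⟨M, hM⟩ := eventually_atTop.1 h7
  exact ⟨M, fun n hn => by exact_mod_cast hM n hn⟩
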